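import Pool.Agent.N110.QG.Main
import Pool.Agent.N110.Can
import Pool.Agent.N50.QG.Lim
import Pool.Agent.N50.QG.Quad
import Pool.Agent.N348.QG.Geo

/-!
**Quadratic growth** of the degrees of birational self-maps if the numerical dimension of `K_X + Δ`
is at least `dim X - 1`: the steps put together.
-/

set_option autoImplicit false
set_option linter.overlappingInstances false
set_option linter.unusedSectionVars false

open FF Pool.Agent.W602.GT Pool.Agent.Y172 Pool.Agent.R887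

namespace Pool.Agent.N110.QG

section

variable {K : Type} [Field K] [Algebra ℂ K] {N n : ℕ} {y : Fin (N + 1) → K}

/-- **Quadratic growth.** -/
theorem quadratic_growth (hy : NormalModel y)
    (hn : Algebra.trdeg ℂ K = n) (hn2 : 2 ≤ n) {Δ : Place ℂ K → ℚ}
    (hΔ : {P | IsPrimeDivisor y P ∧ Δ P ≠ 0}.Finite) {S : Set (K ≃ₐ[ℂ] K)}
    (h : (∀ φ ∈ S, PullLe φ y n Δ ∧ PullLe φ⁻¹ y n Δ) ∨ (Δ = 0 ∧ Canonical y n)) {B : ℕ}
    (hB : ∀ φ ∈ S, mixedDegree φ y n 1 ≤ B) (hnum : ¬ NumDimLt y n Δ (n - 1)) :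
    ∃ A : ℝ, ∀ w : List (K ≃ₐ[ℂ] K), (∀ φ ∈ w, φ ∈ S) →
      mixedDegree w.prod y n 1 ≤ ENNReal.ofReal (A * (w.length + 1) ^ 2) := by
  have h' : ∀ φ ∈ S, PullLe φ y n Δ ∧ PullLe φ⁻¹ y n Δ := by
    rcases h with h | ⟨rfl, hcan⟩
    · exact h
    · exact fun φ _ => ⟨pullLe_canonical hy hn hcan φ, pullLe_canonical hy hn hcan _⟩
  exact quadratic N50.QG.leafQ1 N50.QG.leafQ2 N348.QG.leafQ3 hy hn hn2 hΔ
    (fun φ hφ => (h' φ hφ).1) (fun φ hφ => (h' φ hφ).2) hB hnum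

end

end Pool.Agent.N110.QG
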