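import Pool.Agent.N110.QG.Stm
import Pool.Agent.N110.RK.Stat

/-!
**Quadratic growth** of the degrees of birational self-maps if the numerical dimension of `K_X + Δ`
is at least `dim X - 1`.
-/

set_option autoImplicit false
set_option linter.overlappingInstances false
set_option linter.unusedSectionVars false

open FF Module MvPolynomial Pool.Agent.W602.GT Pool.Agent.W603.LV
open Pool.Agent.Y172 Pool.Agent.Y191 Pool.Agent.R887 Pool.Agent.N110.RK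
open scoped ENNReal

namespace Pool.Agent.N110.QG

section

variable {K : Type} [Field K] [Algebra ℂ K] {N n : ℕ} {y : Fin (N + 1) → K}

/-- **Quadratic growth.** -/
theorem quadratic (hQ1 : StmQ1) (hQ2 : StmQ2) (hQ3 : StmQ3) (hy : NormalModel y)
    (hn : Algebra.trdeg ℂ K = n) (hn2 : 2 ≤ n) {Δ : Place ℂ K → ℚ}
    (hΔ : {P | IsPrimeDivisor y P ∧ Δ P ≠ 0}.Finite) {S : Set (K ≃ₐ[ℂ] K)}
    (h1 : ∀ φ ∈ S, PullLe φ y n Δ) (h2 : ∀ φ ∈ S, PullLe φ⁻¹ y n Δ) {B : ℕ}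
    (hB : ∀ φ ∈ S, mixedDegree φ y n 1 ≤ B) (hnum : ¬ NumDimLt y n Δ (n - 1)) :
    ∃ A : ℝ, ∀ w : List (K ≃ₐ[ℂ] K), (∀ φ ∈ w, φ ∈ S) →
      mixedDegree w.prod y n 1 ≤ ENNReal.ofReal (A * (w.length + 1) ^ 2) := by
  obtain ⟨i, hi⟩ := hy.ne
  obtain ⟨m, M, c, ε, h⟩ := hQ3 hy hn hn2 hi hΔ h1 h2 hnum
  obtain ⟨k, rfl⟩ : ∃ k, n = k + 2 := ⟨n - 2, by omega⟩
  have e1 : k + 2 - 1 = k + 1 := by omega
  rw [e1] at h
  obtain ⟨b, C, κ, hR, hb0⟩ := hQ1 _ _ _ k _ _ _ _ m M c ε h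
  have hdeg : ∀ g : Subgroup.closure S, mixedDegree (g : K ≃ₐ[ℂ] K) y (k + 2) 1 =
      ENNReal.ofReal (b 0 g) := by
    intro g
    rw [hb0, mixedDegree_eq hy hn hi (g : K ≃ₐ[ℂ] K) (by omega : 1 ≤ k + 2),
      Multiset.replicate_one, Multiset.singleton_add, e1, ENNReal.ofReal_natCast]
  have hS : ∀ g ∈ {g : Subgroup.closure S | (g : K ≃ₐ[ℂ] K) ∈ S}, b 0 g ≤ B := by
    intro g hg
    have h3 := hB _ hg
    rw [hdeg, ← ENNReal.ofReal_natCast] at h3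
    exact (ENNReal.ofReal_le_ofReal_iff (Nat.cast_nonneg _)).1 h3
  obtain ⟨A, hA⟩ := hQ2 _ k b C κ hR _ B hS
  refine ⟨A, fun w hw => ?_⟩
  have hcl : ∀ φ ∈ w, φ ∈ Subgroup.closure S := fun φ hφ => Subgroup.subset_closure (hw φ hφ)
  obtain ⟨w', hw'⟩ : ∃ w' : List (Subgroup.closure S), w'.map Subtype.val = w := by
    refine ⟨w.attach.map fun φ => ⟨φ.1, hcl φ.1 φ.2⟩, ?_⟩
    rw [List.map_map]
    exact List.attach_map_subtype_val w
  have h3 := hA w' fun g hg => by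
    change (g : K ≃ₐ[ℂ] K) ∈ S
    refine hw _ ?_
    rw [← hw']
    exact List.mem_map_of_mem hg
  have h4 : ((w'.prod : Subgroup.closure S) : K ≃ₐ[ℂ] K) = w.prod := by
    rw [← hw']
    exact map_list_prod (Subgroup.closure S).subtype w'
  have h5 : w'.length = w.length := by
    rw [← hw', List.length_map]
  rw [← h4, hdeg, ← h5]
  exact ENNReal.ofReal_le_ofReal h3

end

end Pool.Agent.N110.QG
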