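import Pool.Agent.N110.RK.Geo
import Pool.Agent.N110.Joint

/-!
Quadratic growth of the degrees of birational self-maps if the numerical dimension of `K_X + Δ` is
at least `dim X - 1`: the steps of the proof.
-/

set_option autoImplicit false

open Multiset Filter Topology FF Module
open Pool.Agent.W602.GT Pool.Agent.W603.LV Pool.Agent.Y172 Pool.Agent.Y191 Pool.Agent.R887
open Pool.Agent.N110.RK

namespace Pool.Agent.N110.QG

/-- intersection numbers with an action of a group and a sequence of elements which is almost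
invariant -/
structure GSys {α 𝒜 G : Type} [Preorder 𝒜] [Group G] (n : ℕ) (t : Multiset α → ℝ)
    (φ : G → α → α) (mul : α → α → α) (H : α) (m : ℕ → ℕ) (M : 𝒜 → ℕ → α) (ν : ℕ) (c ε : ℝ) :
    Prop where
  pos : ∀ s : Multiset α, s.card = n → 0 < t s
  ex : Exch n t
  hν : ν ≤ n
  hc : 0 < c
  hε : 0 < ε
  φ_one : φ 1 = id
  φ_mul : ∀ g h, φ (g * h) = φ g ∘ φ h
  inv : ∀ g (s : Multiset α), s.card = n → t (s.map (φ g)) = t s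
  mul_t : ∀ a b (s : Multiset α), s.card + 1 = n →
    t (mul a b ::ₘ s) = t (a ::ₘ s) + t (b ::ₘ s)
  m_pos : ∀ q, 1 ≤ m q
  mono : ∀ a a', a ≤ a' → ∀ q, Le n t 1 (M a q) (M a' q)
  M_f : ∀ g a, ∃ a', ∀ q, Le n t 1 (φ g (M a q)) (M a' q)
  M_le : ∀ a, ∀ᶠ q in atTop, Le n t (c * m q) (M a q) H
  eps : ∃ a, ∀ᶠ q in atTop, ε * (m q : ℝ) ^ ν ≤ t (replicate ν (M a q) + replicate (n - ν) H)

/-- the relative numbers `b j g` are the limits of the numbers `M ^ j · H ^ (n + 1 - j) · g H`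
divided by `m ^ j` -/
structure Rel {G : Type} [Group G] (n : ℕ) (b : ℕ → G → ℝ) (C κ : ℝ) : Prop where
  hC : 0 < C
  hκ : 0 < κ
  nonneg : ∀ j g, 0 ≤ b j g
  top : ∀ g, b (n + 1) g = κ
  sub : ∀ g h, b n (g * h) ≤ 2 * (b n g + b n h)
  le : ∀ j, j ≤ n + 1 → ∀ g, b j g ≤ C * b 0 g
  rk : ∀ j, j ≤ n + 1 → ∀ g, ∀ N : ℕ, 1 ≤ N →
    b j g ≤ C * N * ∑ i ∈ Finset.range (n + 2), b i g / (N : ℝ) ^ (n + 1 - i)

/-- the limits -/
def StmQ1 : Prop :=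
  ∀ (α 𝒜 G : Type) [Preorder 𝒜] [IsDirected 𝒜 (· ≤ ·)] [Nonempty 𝒜] [Group G] (n : ℕ)
    (t : Multiset α → ℝ) (φ : G → α → α) (mul : α → α → α) (H : α) (m : ℕ → ℕ)
    (M : 𝒜 → ℕ → α) (c ε : ℝ), GSys (n + 2) t φ mul H m M (n + 1) c ε →
    ∃ (b : ℕ → G → ℝ) (C κ : ℝ), Rel n b C κ ∧
      ∀ g, b 0 g = t (φ g H ::ₘ replicate (n + 1) H)

/-- quadratic growth -/
def StmQ2 : Prop :=
  ∀ (G : Type) [Group G] (n : ℕ) (b : ℕ → G → ℝ) (C κ : ℝ), Rel n b C κ →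
    ∀ (S : Set G) (B : ℝ), (∀ g ∈ S, b 0 g ≤ B) →
    ∃ A : ℝ, ∀ w : List G, (∀ g ∈ w, g ∈ S) → b 0 w.prod ≤ A * (w.length + 1) ^ 2

/-- the geometric system -/
def StmQ3 : Prop :=
  ∀ {K : Type} [Field K] [Algebra ℂ K] {N n : ℕ} {y : Fin (N + 1) → K} (hy : NormalModel y)
    (_ : Algebra.trdeg ℂ K = n) (_ : 2 ≤ n) {i : Fin (N + 1)} (hi : y i ≠ 0)
    {Δ : Place ℂ K → ℚ} (_ : {P | IsPrimeDivisor y P ∧ Δ P ≠ 0}.Finite)
    {S : Set (K ≃ₐ[ℂ] K)} (_ : ∀ φ ∈ S, PullLe φ y n Δ) (_ : ∀ φ ∈ S, PullLe φ⁻¹ y n Δ)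
    (_ : ¬ NumDimLt y n Δ (n - 1)),
    ∃ (m : ℕ → ℕ) (M : EffT y → ℕ → Cls ℂ (affS y i)) (c ε : ℝ),
      GSys n (fun s : Multiset (Cls ℂ (affS y i)) => (I s : ℝ))
        (fun g : Subgroup.closure S => mapCls hy hi (g : K ≃ₐ[ℂ] K))
        (mulCls (fin_affS i) (one_affS hi)) (hcls hy hi) m M (n - 1) c ε

end Pool.Agent.N110.QG
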